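import Mathlib
import Pool.Agent.Q60.D3.Defs

/-!
# The classes generated by divisors, by Weil classes on abelian fourfolds and by the Hodge classes
of codimension two on abelian varieties of CM type
-/

namespace Pool.Agent.Q60.D3Q

open Pool.Agent.H204R3.CM Pool.Agent.Q60.D3

/-- The smallest system of cohomology classes `f ∈ H^κ(X, ℚ)` of complex abelian varieties `X`
(alternating forms on `H_1(X, ℚ)` in variables indexed by the finite set `κ`) which contains the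
Hodge classes of degree two, the Weil classes of imaginary quadratic fields on abelian fourfolds and
the Hodge classes of codimension two on abelian varieties of CM type, and which is stable under linear combinations,
cup products, pull-backs along homomorphisms and push-forwards along projections `X × Y → X`. -/
inductive Gen : (X : AV) → (κ : Type) → (X.H [⋀^κ]→ₗ[ℚ] ℚ) → Prop
  /-- classes of degree zero -/
  | unit {X : AV} {κ : Type} [IsEmpty κ] (f : X.H [⋀^κ]→ₗ[ℚ] ℚ) : Gen X κ f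
  /-- Hodge classes of degree two -/
  | divisor {X : AV} {κ : Type} (hκ : Nat.card κ = 2) (f : X.H [⋀^κ]→ₗ[ℚ] ℚ)
      (hf : IsHodge X.per f) : Gen X κ f
  /-- Weil classes on abelian fourfolds -/
  | weil {Y : AV} (f : Y.H [⋀^Fin 4]→ₗ[ℚ] ℚ) (hf : IsWeilClass Y f) : Gen Y (Fin 4) f
  /-- Hodge classes of degree four on abelian varieties of CM type -/
  | cm {Y : AV} (hY : IsCM Y) (f : Y.H [⋀^Fin 4]→ₗ[ℚ] ℚ) (hf : IsHodge Y.per f) :
      Gen Y (Fin 4) f
  | zero (X : AV) (κ : Type) : Gen X κ 0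
  | add {X : AV} {κ : Type} (f g : X.H [⋀^κ]→ₗ[ℚ] ℚ) (hf : Gen X κ f) (hg : Gen X κ g) :
      Gen X κ (f + g)
  | smul {X : AV} {κ : Type} (a : ℚ) (f : X.H [⋀^κ]→ₗ[ℚ] ℚ) (hf : Gen X κ f) :
      Gen X κ (a • f)
  /-- renaming of the variables -/
  | reindex {X : AV} {κ κ' : Type} (e : κ ≃ κ') (f : X.H [⋀^κ]→ₗ[ℚ] ℚ) (hf : Gen X κ f) :
      Gen X κ' (f.domDomCongr e)
  /-- cup products (up to a factor) -/
  | cup {X : AV} {κ κ' : Type} [Fintype κ] [DecidableEq κ] [Fintype κ'] [DecidableEq κ']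
      (f : X.H [⋀^κ]→ₗ[ℚ] ℚ) (g : X.H [⋀^κ']→ₗ[ℚ] ℚ) (hf : Gen X κ f) (hg : Gen X κ' g)
      (h : X.H [⋀^κ ⊕ κ']→ₗ[ℚ] ℚ)
      (hh : ∀ v : κ ⊕ κ' → X.H, h v = ∑ σ : Equiv.Perm (κ ⊕ κ'), ((Equiv.Perm.sign σ : ℤ) : ℚ) *
        (f (fun k => v (σ (Sum.inl k))) * g (fun k => v (σ (Sum.inr k))))) :
      Gen X (κ ⊕ κ') h
  /-- pull-back along a homomorphism -/
  | pull {X Y : AV} {κ : Type} (h : X.H →ₗ[ℚ] Y.H) (hh : IsHom X Y h)
      (f : Y.H [⋀^κ]→ₗ[ℚ] ℚ) (hf : Gen Y κ f) : Gen X κ (f.compLinearMap h)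
  /-- push-forward (integration over the fibres) along the projection `X × Y → X`: insert a basis
  of `H_1(Y, ℚ)` -/
  | push {X Y : AV} {κ κ' : Type} (b : Module.Basis κ' ℚ Y.H)
      (f : (X.prod Y).H [⋀^κ ⊕ κ']→ₗ[ℚ] ℚ) (hf : Gen (X.prod Y) (κ ⊕ κ') f)
      (g : X.H [⋀^κ]→ₗ[ℚ] ℚ)
      (hg : ∀ v : κ → X.H,
        g v = f (Sum.elim (fun k => ((v k, 0) : X.H × Y.H)) (fun k => ((0, b k) : X.H × Y.H)))) :
      Gen X κ g

end Pool.Agent.Q60.D3Q
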