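import Mathlib
import Pool.Agent.Q60.D3Q.Defs
import Pool.Agent.Q60.D3E.Stm
import Pool.Agent.W547.KB.Final
import Pool.Agent.W547.HR.Rat

/-!
# Project D3Q: codimension two suffices, statements of the lemma jobs
-/

namespace Pool.Agent.Q60.D3Q

open Pool.Agent.H204R3.CM
open Pool.Agent.Q60.D3 (AV IsHom IsSimple IsCM KOn IsIsogenousToProd)
open Pool.Agent.W547.KB (CMPair CMAV span_perX)
open Pool.Agent.Q60.D3E (IsoCM)

/-- JOB Q1. There are polarizations. -/
def S_polx : Prop :=
  ∀ X : CMAV, ∃ E : X.Tan → X.Tan → ℂ, (∀ u', IsLinearMap ℂ fun u => E u u') ∧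
    (∀ u u', E u' u = starRingEnd ℂ (E u u')) ∧ (∀ u, u ≠ 0 → 0 < (E u u).re) ∧
    ∀ v w, ∃ q : ℚ, (E (X.per v) (X.per w)).im = q

/-- The product of abelian varieties of CM types as an abelian variety. -/
noncomputable def avOf (h : S_polx) (X : CMAV) : AV where
  H := X.H1
  T := X.Tan
  per := X.per
  span := span_perX X
  dim := by
    have h1 := Pool.Agent.W547.HR.finrank_tan X
    rw [finrank_real_of_complex] at h1
    exact h1.symm
  pol := h X

/-- JOB Q2. The classes generated by divisors and the Weil classes of degree four on the products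
`Y × B` are generated by Hodge classes of codimension at most two. -/
def S_kbt : Prop :=
  ∀ (h : S_polx) (B : CMPair) (X : CMAV) (κ : Type) (f : X.H1 [⋀^κ]→ₗ[ℚ] ℚ),
    Pool.Agent.W547.KB.Gen B X κ f → Finite κ → Gen (avOf h X) κ f

/-- JOB Q3. The generated classes are Hodge classes. -/
def S_conv : Prop :=
  ∀ (X : AV) (κ : Type) (f : X.H [⋀^κ]→ₗ[ℚ] ℚ), Gen X κ f → Finite κ → IsHodge X.per f

end Pool.Agent.Q60.D3Q
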