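import Mathlib
import Pool.Agent.Q60.D3Q.Stm
import Pool.Agent.Q60.D3E.Asm

/-!
# Hodge classes on abelian varieties with simple factors of dimension at most three or of CM type:
codimension two suffices, assembly
-/

set_option linter.unusedSectionVars false
set_option linter.unusedVariables false

namespace Pool.Agent.Q60.D3Q

open Pool.Agent.H204R3.CM
open Pool.Agent.Q60.D3 (AV IsHom IsSimple IsCM KOn IsIsogenousToProd)
open Pool.Agent.Q60.D3P (CP)
open Pool.Agent.Q60.D3E (S_cls S_one S_iscm S_prod IsoCM InP exists_cp isoCM_single inP_zero)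
open Pool.Agent.W547.KB (CMPair CMAV gen_of_hodge)

/-- The relative generated classes are generated. -/
theorem gen_of_genP [cp : CP] (hP : ∀ {Y : AV}, cp.P Y → ∀ {κ : Type} [Finite κ]
    (f : Y.H [⋀^κ]→ₗ[ℚ] ℚ), IsHodge Y.per f → Gen Y κ f) {X : AV} {κ : Type}
    (f : X.H [⋀^κ]→ₗ[ℚ] ℚ) (h : Pool.Agent.Q60.D3P.Gen X κ f) : Finite κ → Gen X κ f := by
  induction h with
  | unit f => exact fun _ => .unit f
  | divisor hκ f hf => exact fun _ => .divisor hκ f hf
  | weil f hf => exact fun _ => .weil f hf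
  | cm hY f hf => exact fun _ => hP hY f hf
  | zero X κ => exact fun _ => .zero X κ
  | add f g _ _ ihf ihg => exact fun h => .add f g (ihf h) (ihg h)
  | smul a f _ ih => exact fun h => .smul a f (ih h)
  | reindex e f _ ih => exact fun h => .reindex e f (ih (Finite.of_equiv _ e.symm))
  | cup f g _ _ h hh ihf ihg => exact fun _ => .cup f g (ihf inferInstance) (ihg inferInstance) h hh
  | pull h hh f _ ih => exact fun hfin => .pull h hh f (ih hfin)
  | push b f _ g hg ih =>
    intro h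
    have := Module.Finite.finite_basis b
    exact .push b f (ih inferInstance) g hg

/-- There is a CM pair. -/
theorem exists_pair (hcls : S_cls) (hone : S_one) : ∃ B : CMPair, True := by
  obtain ⟨E, b, K, L, -⟩ := Pool.Agent.Q251.D3.t_ELL 1 squarefree_one Complex.I (by
    rw [Complex.I_mul_I, Nat.cast_one])
  have h1 : Module.finrank ℂ E.T = 1 := K.dimA
  obtain ⟨B, -⟩ := hcls E (hone E h1) (Pool.Agent.Q237.D3C.ecm E K) (by rw [h1]; exact one_pos)
  exact ⟨B, trivial⟩

/-- The Hodge classes on products of abelian varieties with CM types are generated. -/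
theorem gen_of_inP (hcls : S_cls) (hone : S_one) (hpolx : S_polx) (hkbt : S_kbt) {𝒮 : Set CMPair}
    {Y : AV} (hY : InP 𝒮 Y) {κ : Type} [Finite κ] (f : Y.H [⋀^κ]→ₗ[ℚ] ℚ) (hf : IsHodge Y.per f) :
    Gen Y κ f := by
  obtain ⟨X, -, e, C, h⟩ := hY
  obtain ⟨B, -⟩ := exists_pair hcls hone
  have h1 : IsHodge X.per (f.compLinearMap e.symm.toLinearMap) := by
    refine Pool.Agent.W437.HK.isHodge_pullback (Φ := C.symm.toLinearMap) (fun w => ?_) hf
    have h2 := h (e.symm w)
    rw [e.apply_symm_apply] at h2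
    change Y.per (e.symm w) = C.symm (X.per w)
    rw [← h2, C.symm_apply_apply]
  have h3 : Gen (avOf hpolx X) κ (f.compLinearMap e.symm.toLinearMap) :=
    hkbt hpolx B X κ _ (gen_of_hodge B X _ h1) inferInstance
  have h5 := Gen.pull (X := Y) (Y := avOf hpolx X) e.toLinearMap ⟨C.toLinearMap, h⟩ _ h3
  have h4 : (f.compLinearMap e.symm.toLinearMap).compLinearMap e.toLinearMap = f := by
    ext v
    change f (fun l => e.symm (e (v l))) = f v
    congr 1
    funext l
    exact e.symm_apply_apply _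
  have h6 : ∀ g : Y.H [⋀^κ]→ₗ[ℚ] ℚ, Gen Y κ g → g = f → Gen Y κ f := by
    rintro g hg rfl
    exact hg
  exact h6 _ h5 h4

/-- The theorem on Hodge classes, from the lemmas. -/
theorem top (hcls : S_cls) (hone : S_one) (hiscm : S_iscm) (hprod : S_prod) (hpolx : S_polx)
    (hkbt : S_kbt) (hconv : S_conv) {ι : Type} [Finite ι] {X : AV} {A : ι → AV}
    (hX : IsIsogenousToProd X A) (hs : ∀ i, IsSimple (A i))
    (hd : ∀ i, Module.finrank ℂ (A i).T ≤ 3 ∨ IsCM (A i))
    {κ : Type} [Finite κ] (f : X.H [⋀^κ]→ₗ[ℚ] ℚ) : IsHodge X.per f ↔ Gen X κ f := by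
  refine ⟨fun hf => ?_, fun hf => hconv X κ f hf inferInstance⟩
  obtain ⟨cp, hcp⟩ := exists_cp hcls hone hiscm hprod Set.univ
  have hcmP : ∀ i, IsCM (A i) → cp.P (A i) := by
    intro i hi
    rw [hcp]
    by_cases h0 : Module.finrank ℂ (A i).T = 0
    · exact inP_zero h0
    · obtain ⟨B, hB⟩ := hcls (A i) (hs i) hi (Nat.pos_of_ne_zero h0)
      exact ⟨⟨Unit, fun _ => B⟩, fun _ => Or.inl trivial, isoCM_single hB⟩
  have h1 := (Pool.Agent.Q60.D3P.hodge_dim_three_class hX hs
    (fun i => (hd i).imp id (hcmP i)) hcmP f).1 hf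
  refine gen_of_genP (fun {Y} hY {κ} _ f hf => ?_) f h1 inferInstance
  rw [hcp] at hY
  exact gen_of_inP hcls hone hpolx hkbt hY f hf

end Pool.Agent.Q60.D3Q
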